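import Mathlib
import Pool.Agent.Y703.CX.Stm
import Pool.Agent.Y703.CT.StmE
import Pool.Agent.Y699.E.Cheb

/-!
# Project XK (helper703): the exact proportion over `ℚ(ω)`

`D` runs over the squarefree primary elements of `ℤ[ω]` whose norm is not `1` modulo `9` (a class of
positive density). The proportion of those for which the Laplacian of the symmetric matrix of the
cubic residue symbols of the prime divisors has only the constants in its kernel tends to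
`∏_{i ≥ 0} (1 - 3^{-(2i+1)}) = 0.6390...`. Statements of the parts. Tools: the library
`Pool/Agent/Y699/E` of helper699 (`QB V`: primary primes of norm at most `V`; `SB V`: squarefree
primary elements of norm at most `V`; `PD n`: the primary primes dividing `n`; `nrm`: norm).
-/

set_option autoImplicit false
set_option linter.unusedVariables false

open scoped Classical

namespace Pool.Agent.Y703.XK

open Finset
open Pool.Agent.Y692.QS (Ei w nr toC)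
open Pool.Agent.Y715.T.Rec (cs)
open Pool.Agent.Y715.T.RecG (Pq)
open Pool.Agent.Y699.E (ez nrm QB)
open Pool.Agent.Y703.CT (ClsE GoodE)
open Pool.Agent.Y703.CX (jj XX eL zz kk)

/-- the kernel of the Laplacian of the cubic residue symbols -/
def Sol (S : Finset Ei) (v : Ei → ZMod 3) : Prop :=
  ∀ π ∈ S, ∑ ρ ∈ S, cs π ρ * (v ρ - v π) = 0

/-- the good sets: all solutions are constant -/
def Gd (S : Finset Ei) : Prop := ∀ v, Sol S v → ∀ π ∈ S, ∀ ρ ∈ S, v π = v ρ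

/-- the class of the sets of primary primes -/
def Cl (S : Finset Ei) : Prop := (∀ π ∈ S, Pq π) ∧ (∏ π ∈ S, nrm π) % 9 ≠ 1

/-- the sets of the class with norm at most `X` -/
noncomputable def SS (X : ℕ) : Finset (Finset Ei) :=
  (QB X).powerset.filter fun S => Cl S ∧ ∏ π ∈ S, nrm π ≤ X

/-- the limit `(1 - 1/3) (1 - 1/27) (1 - 1/243) ⋯` -/
noncomputable def c9 : ℝ := ∏' i : ℕ, (1 - (1 / 3 : ℝ) ^ (2 * i + 1))

/-- FINAL: the proportion of the good sets -/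
def S_DQ : Prop := Filter.Tendsto
  (fun X : ℕ => (((SS X).filter Gd).card : ℝ) / ((SS X).card : ℝ)) Filter.atTop (nhds c9)

/-- FINAL, in terms of the elements `D`. -/
def S_DEN : Prop := Filter.Tendsto
  (fun X : ℕ => ({D : Ei | nr D ≤ X ∧ GoodE D}.ncard : ℝ) /
    ({D : Ei | nr D ≤ X ∧ ClsE D}.ncard : ℝ)) Filter.atTop (nhds c9)

/-- XK-NS: the translation. -/
def S_NS : Prop := S_DQ → S_DEN

/-- XK-LOW: the class has positive density. -/
def S_LOW : Prop := ∃ (c : ℝ) (X₀ : ℕ), 0 < c ∧ ∀ X : ℕ, X₀ ≤ X → c * X ≤ ((SS X).card : ℝ)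

/-- XK-BIL: bilinear sums of cubic symbols. -/
def S_BIL : Prop := ∃ C : ℝ, 1 ≤ C ∧ ∀ (P Q : Finset Ei) (A B z : ℕ) (c d : Ei → ℂ) (a : ZMod 3),
  (∀ π ∈ P, Pq π ∧ nrm π ≤ A) → (∀ ρ ∈ Q, Pq ρ ∧ nrm ρ ≤ B) → Disjoint P Q → a ≠ 0 →
  1 ≤ z → z ≤ A → z ≤ B → (∀ π, ‖c π‖ ≤ 1) → (∀ ρ, ‖d ρ‖ ≤ 1) →
  ‖∑ π ∈ P, ∑ ρ ∈ Q, c π * d ρ * ez (a * cs π ρ)‖ ^ 24 * z ≤ C * ((A : ℝ) * B) ^ 24

/-- the pairs of indices -/
noncomputable def prs (ι : Type) [Fintype ι] [LinearOrder ι] : Finset (ι × ι) :=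
  univ.filter fun e => e.1 < e.2

/-- the bilinear hypothesis for a box -/
def HB {ι : Type} (C : ι → Finset Ei) (X : ι → ℕ) (κ : ℝ) : Prop :=
  ∀ i l : ι, i ≠ l → ∀ (a : ZMod 3) (c d : Ei → ℂ), a ≠ 0 → (∀ π, ‖c π‖ ≤ 1) → (∀ ρ, ‖d ρ‖ ≤ 1) →
    ‖∑ x ∈ C i, ∑ y ∈ C l, c x * d y * ez (a * cs x y)‖ ≤ κ * (X i * X l)

/-- XK-EQ: equidistribution of the symbols of a tuple. -/
def S_EQ : Prop := ∀ (ι : Type) [Fintype ι] [LinearOrder ι] (C : ι → Finset Ei)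
  (X : ι → ℕ) (κ : ℝ), 0 ≤ κ → (∀ i, (C i).card ≤ X i) → HB C X κ →
  ∀ Q : (prs ι → ZMod 3) → Prop,
    |(((Fintype.piFinset C).filter fun p => Q fun e => cs (p e.1.1) (p e.1.2)).card : ℝ) -
      ((univ.filter Q).card : ℝ) / 3 ^ (prs ι).card * ∏ j, ((C j).card : ℝ)| ≤
    3 ^ (prs ι).card * (κ * ∏ j, (X j : ℝ))

/-- the symmetric matrix with given entries above the diagonal -/
noncomputable def ext {ι : Type} [Fintype ι] [LinearOrder ι] (α : prs ι → ZMod 3) (k l : ι) :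
    ZMod 3 :=
  if h : (k, l) ∈ prs ι then α ⟨(k, l), h⟩ else if h' : (l, k) ∈ prs ι then α ⟨(l, k), h'⟩ else 0

/-- all solutions of the block system are constant -/
def GdA {U J : Type} [Fintype U] [Fintype J] (A : U → U → ZMod 3) (B : U → J → ZMod 3)
    (R : J → J → ZMod 3) : Prop :=
  ∀ (c : U → ZMod 3) (d : J → ZMod 3),
    (∀ u, ∑ v, A u v * (c v - c u) + ∑ l, B u l * (d l - c u) = 0) →
    (∀ k, ∑ u, B u k * (c u - d k) + ∑ l, R k l * (d l - d k) = 0) →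
    ∃ t : ZMod 3, (∀ u, c u = t) ∧ ∀ l, d l = t

/-- XK-SYM: the number of the nonsingular symmetric matrices over the field with three elements. -/
def S_SYM : Prop := ∀ n : ℕ,
  (Nat.card {M : Matrix (Fin n) (Fin n) (ZMod 3) // M.IsSymm ∧ M.det ≠ 0} : ℝ) =
    3 ^ (n * (n + 1) / 2) * ∏ i ∈ range ((n + 1) / 2), (1 - (1 / 3 : ℝ) ^ (2 * i + 1))

/-- XK-C9: the infinite product. -/
def S_C9 : Prop := (∀ n : ℕ, |∏ i ∈ range n, (1 - (1 / 3 : ℝ) ^ (2 * i + 1)) - c9| ≤ (1 / 9 : ℝ) ^ n) ∧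
  0 < c9 ∧ c9 < 1 ∧ 0.639 < c9 ∧ c9 < 0.6391

/-- XK-LA: the probability that a random symmetric completion is good. -/
def S_LA : Prop := ∀ (U J : Type) [Fintype U] [Fintype J] [LinearOrder J]
  (A : U → U → ZMod 3) (B : U → J → ZMod 3), Fintype.card U < Fintype.card J →
  (∀ u v, A u v = A v u) →
  (∀ w : U → ZMod 3, (∃ u, w u ≠ 0) → ∃ k, ∑ u, w u * B u k ≠ 0) →
  |((univ.filter fun α : prs J → ZMod 3 => GdA A B (ext α)).card : ℝ) /
      3 ^ (prs J).card - c9| ≤ 3 * (3 ^ Fintype.card U / 3 ^ Fintype.card J)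

/-- the labels of the large primes with respect to the small ones are not degenerate -/
def Nd (S₀ S₁ : Finset Ei) : Prop :=
  ∀ v : Ei → ZMod 3, (∃ u ∈ S₀, v u ≠ 0) → ∃ π ∈ S₁, ∑ u ∈ S₀, v u * cs u π ≠ 0

/-- XK-BOX: the count in a box. -/
def S_BOX : Prop := S_EQ → S_LA → ∀ (ι : Type) [Fintype ι] [LinearOrder ι]
  (C : ι → Finset Ei) (X : ι → ℕ) (κ : ℝ) (S₀ : Finset Ei), 0 ≤ κ → (∀ i, (C i).card ≤ X i) →
  HB C X κ → (∀ u ∈ S₀, Pq u) → (∀ i, ∀ π ∈ C i, Pq π ∧ π ∉ S₀) →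
  (∀ i l, i ≠ l → Disjoint (C i) (C l)) → S₀.card < Fintype.card ι →
  |(((Fintype.piFinset C).filter fun p => Nd S₀ (univ.image p) ∧ Gd (S₀ ∪ univ.image p)).card : ℝ) -
      c9 * (((Fintype.piFinset C).filter fun p => Nd S₀ (univ.image p)).card : ℝ)| ≤
    3 * (3 ^ S₀.card / 3 ^ Fintype.card ι) *
      (((Fintype.piFinset C).filter fun p => Nd S₀ (univ.image p)).card : ℝ) +
    3 ^ (S₀.card * Fintype.card ι + (prs ι).card) * (κ * ∏ j, (X j : ℝ))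

/-- the small primes of a set -/
noncomputable def sm (z : ℕ) (S : Finset Ei) : Finset Ei := S.filter fun π => nrm π ≤ z

/-- the large primes of a set -/
noncomputable def la (z : ℕ) (S : Finset Ei) : Finset Ei := S.filter fun π => ¬ nrm π ≤ z

/-- the number of the block of a prime -/
noncomputable def bl (H : ℕ) (π : Ei) : ℕ := jj H (nrm π)

/-- the regular sets -/
noncomputable def RR (X z H k V : ℕ) : Finset (Finset Ei) :=
  (SS X).filter fun S => Set.InjOn (bl H) (la z S : Set Ei) ∧ S.card ≤ k ∧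
    (∏ π ∈ sm z S, nrm π) * ∏ π ∈ la z S, XX H (bl H π) ≤ X ∧
    (sm z S).card + V < (la z S).card

/-- XK-KEY: the sum over the boxes. -/
def S_KEY : Prop := S_BIL → S_EQ → S_LA → S_BOX → ∃ C : ℝ, 1 ≤ C ∧
  ∀ (X z H k V N : ℕ) (κ : ℝ), 1 ≤ X → 1 ≤ H → 1 ≤ z → 0 ≤ κ → C ≤ κ ^ 24 * z →
  (H : ℝ) * Real.log X < N →
  |(((RR X z H k V).filter fun S => Nd (sm z S) (la z S) ∧ Gd S).card : ℝ) -
      c9 * (((RR X z H k V).filter fun S => Nd (sm z S) (la z S)).card : ℝ)| ≤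
    3 * (1 / 3 : ℝ) ^ V * ((RR X z H k V).card : ℝ) +
    (9 * N + 9 : ℝ) ^ k * (3 ^ (9 * k ^ 2 + 9) * κ) * (X * (1 + Real.log X))

/-- XK-CNT: sets with many primes, sets near the boundary, sets with two primes in a block. -/
structure CntP (C : ℝ) : Prop where
  one : 1 ≤ C
  all : ∀ X : ℕ, 1 ≤ X → ((SS X).card : ℝ) ≤ C * X
  many : ∀ X k : ℕ, 1 ≤ X → (((SS X).filter fun S => k < S.card).card : ℝ) * 2 ^ k ≤
    C * (X * (1 + Real.log X))
  cut : ∀ X z H k : ℕ, 1 ≤ X → 1 ≤ H → 1 ≤ k → (((SS X).filter fun S => S.card ≤ k ∧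
    X < (∏ π ∈ sm z S, nrm π) * ∏ π ∈ la z S, XX H (bl H π)).card : ℝ) ≤
      C * (X * (1 + Real.log X)) * (k / H) + C * X * Real.exp (-(Real.log X) / k)
  coll : ∀ X z H : ℕ, 1 ≤ X → 1 ≤ z → 1 ≤ H → (((SS X).filter fun S =>
    ¬ Set.InjOn (bl H) (la z S : Set Ei)).card : ℝ) ≤ C * (X * (1 + Real.log X)) / H + C * X / z

/-- XK-CNT -/
def S_CNT : Prop := ∃ C : ℝ, CntP C

/-- XK-BAD: few sets have degenerate labels. -/
def S_BAD : Prop := ∀ ε : ℝ, 0 < ε → ∃ X₀ : ℕ, ∀ X : ℕ, X₀ ≤ X →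
  (((SS X).filter fun S => S.card ≤ kk X ∧ ¬ Nd (sm (zz X) S) (la (zz X) S)).card : ℝ) ≤ ε * X

/-- XK-FEW: few sets have few large primes. -/
def S_FEW : Prop := ∀ (V : ℕ) (ε : ℝ), 0 < ε → ∃ X₀ : ℕ, ∀ X : ℕ, X₀ ≤ X →
  (((SS X).filter fun S => S.card ≤ kk X ∧ (la (zz X) S).card ≤ (sm (zz X) S).card + V).card : ℝ) ≤
    ε * X

end Pool.Agent.Y703.XK
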